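import Pool.Agent.H73.TS.Targets

/-! Board ts_modules, module MOM: second moment. -/

open MeasureTheory Set Metric Filter
open scoped ENNReal Topology

namespace Pool.Agent.H3.TS

open Pool.Agent.H73.TS

theorem infDist_hom {n : ℕ} {A : Set (E n)} (hA : IsCompact A) (hc : Convex ℝ A) {a₀ : E n}
    (ha₀ : a₀ ∈ A) {lam : ℝ} (h0 : 0 ≤ lam) (h1 : lam ≤ 1) (x : E n) :
    infDist (a₀ + lam • (x - a₀)) A ≤ lam * infDist x A := by
  obtain ⟨a, ha, hd⟩ := hA.exists_infDist_eq_dist ⟨a₀, ha₀⟩ x
  have hm : a₀ + lam • (a - a₀) ∈ A := by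
    have h2 := hc ha₀ ha (sub_nonneg.2 h1) h0 (by ring)
    have e : a₀ + lam • (a - a₀) = (1 - lam) • a₀ + lam • a := by
      rw [smul_sub, sub_smul, one_smul]; abel
    rw [e]
    exact h2
  refine (infDist_le_dist_of_mem hm).trans ?_
  rw [hd, dist_eq_norm, dist_eq_norm]
  have e : a₀ + lam • (x - a₀) - (a₀ + lam • (a - a₀)) = lam • (x - a) := by
    rw [smul_sub, smul_sub, smul_sub]; abel
  rw [e, norm_smul, Real.norm_of_nonneg h0]

theorem mom (hINT : T_INT) : T_MOM := by
  intro n A hA hc hne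
  obtain ⟨hg, hg2, hW⟩ := hINT n A hne hA.isBounded
  obtain ⟨a₀, ha₀⟩ := id hne
  set g : E n → ℝ := fun x => Real.exp (-(Real.pi * infDist x A ^ 2)) with hgdef
  set M : ℝ := ∫ x : E n, Real.pi * infDist x A ^ 2 * Real.exp (-(Real.pi * infDist x A ^ 2))
    with hM
  have hg3 : Integrable (fun x : E n => Real.pi * infDist x A ^ 2 *
      Real.exp (-(Real.pi * infDist x A ^ 2))) := by
    have := hg2.const_mul Real.pi
    refine this.congr (Eventually.of_forall fun x => ?_)
    simp only
    ring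
  have key : ∀ lam ∈ Ioo (0 : ℝ) 1, lam ^ n * (1 + lam) * M ≤ n * W A := by
    intro lam hl
    obtain ⟨hl0, hl1⟩ := hl
    have hpow : 0 < lam ^ n := pow_pos hl0 n
    -- the change of variables
    have hcv : ∫ x : E n, g (a₀ + lam • (x - a₀)) = (lam ^ n)⁻¹ * W A := by
      have h1 : ∫ x : E n, g (a₀ + lam • (x - a₀)) = ∫ x : E n, g (a₀ + lam • x) :=
        integral_sub_right_eq_self (fun x => g (a₀ + lam • x)) a₀
      rw [h1, Measure.integral_comp_smul volume (fun y => g (a₀ + y)) lam,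
        integral_add_left_eq_self (fun y => g y) a₀, finrank_euclideanSpace_fin,
        abs_of_pos (inv_pos.2 hpow), smul_eq_mul]
      rfl
    have hint : Integrable (fun x : E n => g (a₀ + lam • (x - a₀))) := by
      have h1 : Integrable (fun y : E n => g (a₀ + y)) := hg.comp_add_left a₀
      have h2 : Integrable (fun y : E n => g (a₀ + lam • y)) := h1.comp_smul hl0.ne'
      exact h2.comp_sub_right a₀
    have hle : ∫ x : E n, (g x + (1 - lam ^ 2) * (Real.pi * infDist x A ^ 2 *
        Real.exp (-(Real.pi * infDist x A ^ 2)))) ≤ ∫ x : E n, g (a₀ + lam • (x - a₀)) := by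
      refine integral_mono (hg.add (hg3.const_mul _)) hint fun x => ?_
      simp only [hgdef]
      have h1 := infDist_hom hA hc ha₀ hl0.le hl1.le x
      have h2 : infDist (a₀ + lam • (x - a₀)) A ^ 2 ≤ (lam * infDist x A) ^ 2 :=
        pow_le_pow_left₀ infDist_nonneg h1 2
      have h3 : Real.exp (-(Real.pi * (lam * infDist x A) ^ 2)) ≤
          Real.exp (-(Real.pi * infDist (a₀ + lam • (x - a₀)) A ^ 2)) := by
        apply Real.exp_le_exp.2
        have := mul_le_mul_of_nonneg_left h2 Real.pi_pos.le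
        linarith
      refine le_trans ?_ h3
      have h4 : -(Real.pi * (lam * infDist x A) ^ 2) = -(Real.pi * infDist x A ^ 2) +
          (1 - lam ^ 2) * (Real.pi * infDist x A ^ 2) := by ring
      rw [h4, Real.exp_add]
      have h5 := Real.add_one_le_exp ((1 - lam ^ 2) * (Real.pi * infDist x A ^ 2))
      have h6 := Real.exp_pos (-(Real.pi * infDist x A ^ 2))
      nlinarith
    rw [hcv, integral_add hg (hg3.const_mul _), integral_const_mul, ← hM] at hle
    have hle2 : W A + (1 - lam ^ 2) * M ≤ (lam ^ n)⁻¹ * W A := hle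
    have h7 : lam ^ n * (W A + (1 - lam ^ 2) * M) ≤ W A := by
      have := mul_le_mul_of_nonneg_left hle2 hpow.le
      rwa [← mul_assoc, mul_inv_cancel₀ hpow.ne', one_mul] at this
    have hbern : 1 + (n : ℝ) * (lam - 1) ≤ lam ^ n := by
      have := one_add_mul_le_pow (show (-2 : ℝ) ≤ lam - 1 by linarith) n
      simpa using this
    have h8 : (1 - lam) * (lam ^ n * (1 + lam) * M) ≤ (1 - lam) * (n * W A) := by
      have h9 : (1 - lam ^ n) * W A ≤ (n : ℝ) * (1 - lam) * W A :=
        mul_le_mul_of_nonneg_right (by linarith) hW.le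
      nlinarith
    exact le_of_mul_le_mul_left h8 (by linarith)
  have hlim : Tendsto (fun lam : ℝ => lam ^ n * (1 + lam) * M) (𝓝[<] 1) (𝓝 (2 * M)) := by
    have h1 : Continuous (fun lam : ℝ => lam ^ n * (1 + lam) * M) := by fun_prop
    have h2 := (h1.tendsto 1).mono_left (nhdsWithin_le_nhds (s := Iio (1 : ℝ)))
    have e : (1 : ℝ) ^ n * (1 + 1) * M = 2 * M := by rw [one_pow]; ring
    rwa [e] at h2
  have hfin : 2 * M ≤ n * W A :=
    le_of_tendsto hlim (Filter.mem_of_superset (Ioo_mem_nhdsLT (show (0 : ℝ) < 1 by norm_num)) key)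
  linarith

end Pool.Agent.H3.TS
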