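import Pool.Agent.H73.TS.Targets

/-! Board ts_modules, module PO: a polynomial inequality on `[0,2]`. -/

set_option maxHeartbeats 4000000

namespace Pool.Agent.H3.TS

open Pool.Agent.H73.TS

theorem po_id (t : ℝ) :
    2 * ep t * (1 + (sp t ^ 2 - 3.1416 * t) / 15)
      - (1 - sp t / 15) * (3.1416 * t - sp t - sp t ^ 2) + 3.1416 * t / 15 =
    t * (53 / 6553600000 * (t ^ 0 * (2 - t) ^ 23) +
      131 / 819200000 * (t ^ 1 * (2 - t) ^ 22) +
      357823 / 235929600000 * (t ^ 2 * (2 - t) ^ 21) +
      5684723 / 619315200000 * (t ^ 3 * (2 - t) ^ 20) +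
      197122847 / 4954521600000 * (t ^ 4 * (2 - t) ^ 19) +
      107419156703 / 817496064000000 * (t ^ 5 * (2 - t) ^ 18) +
      97767610411 / 284663808000000 * (t ^ 6 * (2 - t) ^ 17) +
      11612044178821 / 15941173248000000 * (t ^ 7 * (2 - t) ^ 16) +
      284599498072927 / 223176425472000000 * (t ^ 8 * (2 - t) ^ 15) +
      1646148601051 / 882895749120000 * (t ^ 9 * (2 - t) ^ 14) +
      512135128160837 / 223176425472000000 * (t ^ 10 * (2 - t) ^ 13) +
      4060361092581131 / 1699574317056000000 * (t ^ 11 * (2 - t) ^ 12) +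
      139771281626646409 / 66283398365184000000 * (t ^ 12 * (2 - t) ^ 11) +
      50354714213634893 / 31914228842496000000 * (t ^ 13 * (2 - t) ^ 10) +
      1204306469769469637 / 1206357850246348800000 * (t ^ 14 * (2 - t) ^ 9) +
      1373583430876962211 / 2585052536242176000000 * (t ^ 15 * (2 - t) ^ 8) +
      1423162259853786719 / 6031789251231744000000 * (t ^ 16 * (2 - t) ^ 7) +
      1562028556372796467 / 18095367753695232000000 * (t ^ 17 * (2 - t) ^ 6) +
      38531749089439433 / 1507947312807936000000 * (t ^ 18 * (2 - t) ^ 5) +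
      7187772815129573 / 1206357850246348800000 * (t ^ 19 * (2 - t) ^ 4) +
      1584310165540783 / 1507947312807936000000 * (t ^ 20 * (2 - t) ^ 3) +
      131768782756697 / 1005298208538624000000 * (t ^ 21 * (2 - t) ^ 2) +
      20564852582189 / 2010596417077248000000 * (t ^ 22 * (2 - t) ^ 1) +
      744154586257 / 2010596417077248000000 * (t ^ 23 * (2 - t) ^ 0)) := by
  unfold ep sp
  ring

theorem po : T_PO := by
  intro t h0 h2
  rw [po_id]
  obtain ⟨s, hs⟩ : ∃ s, s = 2 - t := ⟨_, rfl⟩
  have hs0 : 0 ≤ s := by rw [hs]; linarith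
  rw [← hs]
  positivity

end Pool.Agent.H3.TS
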